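import Mathlib

namespace Pool.Agent.Results.MP_8f6a5a_an.Counter

open Matrix Complex

/-- Symmetric tridiagonal matrix with diagonal `d` and off-diagonal `b`. -/
def tri (n : ℕ) (d b : ℕ → ℝ) : Matrix (Fin n) (Fin n) ℝ := fun i j =>
  if (j : ℕ) = i then d i else if (j : ℕ) = i + 1 then b i else if (j : ℕ) + 1 = i then b j else 0

lemma tri_sum {K : Type*} [CommRing K] (φ : ℝ →+* K) (n : ℕ) (d b : ℕ → ℝ) (u : ℕ → K)
    (i : Fin n) :
    ∑ j : Fin n, φ (tri n d b i j) * u j = φ (d i) * u i +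
      (if (i : ℕ) + 1 < n then φ (b i) * u (i + 1) else 0) +
      (if 0 < (i : ℕ) then φ (b (i - 1)) * u (i - 1) else 0) := by
  have h : ∀ j : Fin n, φ (tri n d b i j) * u j =
      (if (j : ℕ) = i then φ (d i) * u i else 0) +
      (if (j : ℕ) = i + 1 then φ (b i) * u (i + 1) else 0) +
      (if (j : ℕ) = i - 1 then (if 0 < (i : ℕ) then φ (b (i - 1)) * u (i - 1) else 0) else 0) := by
    intro j
    unfold tri
    split_ifs with h1 h2 h3 h4 h5 h6 h7 h8 h9 h10 h11 h12 h13 <;>
      first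
      | omega
      | simp_all
  rw [Finset.sum_congr rfl fun j _ => h j, Finset.sum_add_distrib, Finset.sum_add_distrib]
  have key : ∀ (a : ℕ) (x : K), ∑ j : Fin n, (if (j : ℕ) = a then x else 0) =
      if a < n then x else 0 := by
    intro a x
    rw [Fin.sum_univ_eq_sum_range (fun j => if j = a then x else 0) n, Finset.sum_ite_eq']
    simp
  rw [key, key, key, if_pos i.2, if_pos (show (i : ℕ) - 1 < n by omega)]

lemma eig_le {n : ℕ} (P : Matrix (Fin n) (Fin n) ℝ) (hP : ∀ i j, 0 ≤ P i j) (v : Fin n → ℝ)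
    (hv : ∀ i, 0 < v i) (hPv : ∀ i, ∑ j, P i j * v j = v i) (μ : ℂ)
    (hμ : μ ∈ spectrum ℂ (P.map ofReal)) : ‖μ‖ ≤ 1 := by
  rw [spectrum.mem_iff, Matrix.isUnit_iff_isUnit_det, isUnit_iff_ne_zero, not_not,
    ← Matrix.exists_mulVec_eq_zero_iff] at hμ
  obtain ⟨x, hx0, hx⟩ := hμ
  have hrow : ∀ i, μ * x i = ∑ j, (P i j : ℂ) * x j := by
    intro i
    have := congrFun hx i
    rw [Matrix.sub_mulVec, Algebra.algebraMap_eq_smul_one, Matrix.smul_mulVec,
      Matrix.one_mulVec] at this
    simp only [Pi.sub_apply, Pi.smul_apply, smul_eq_mul, Pi.zero_apply, Matrix.mulVec,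
      dotProduct, Matrix.map_apply] at this
    exact sub_eq_zero.1 this
  obtain ⟨k, hk⟩ : ∃ k, x k ≠ 0 := by
    by_contra h
    push Not at h
    exact hx0 (funext h)
  obtain ⟨i, -, hi⟩ := Finset.exists_max_image Finset.univ (fun j => ‖x j‖ / v j)
    ⟨k, Finset.mem_univ k⟩
  have hM : 0 < ‖x i‖ / v i :=
    lt_of_lt_of_le (div_pos (norm_pos_iff.2 hk) (hv k)) (hi k (Finset.mem_univ k))
  have hxi : 0 < ‖x i‖ := by
    have := mul_pos hM (hv i)
    rwa [div_mul_cancel₀ _ (hv i).ne'] at this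
  have h1 : ‖μ‖ * ‖x i‖ ≤ ‖x i‖ := by
    calc ‖μ‖ * ‖x i‖ = ‖∑ j, (P i j : ℂ) * x j‖ := by rw [← hrow i, norm_mul]
      _ ≤ ∑ j, ‖(P i j : ℂ) * x j‖ := norm_sum_le _ _
      _ ≤ ∑ j, (‖x i‖ / v i) * (P i j * v j) := by
        apply Finset.sum_le_sum
        intro j _
        rw [norm_mul, Complex.norm_real, Real.norm_of_nonneg (hP i j)]
        have h2 := hi j (Finset.mem_univ j)
        rw [div_le_iff₀ (hv j)] at h2
        nlinarith [hP i j]
      _ = ‖x i‖ := by
        rw [← Finset.mul_sum, hPv i, div_mul_cancel₀ _ (hv i).ne']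
  nlinarith

lemma le_rad {n : ℕ} (M : Matrix (Fin n) (Fin n) ℂ) (μ : ℂ) (h : μ ∈ spectrum ℂ M) :
    (‖μ‖₊ : ENNReal) ≤ spectralRadius ℂ M :=
  le_iSup₂_of_le (f := fun k (_ : k ∈ spectrum ℂ M) => (‖k‖₊ : ENNReal)) μ h le_rfl

/-- The pair (value, increment) of the homogeneous solution along the long block. -/
noncomputable def W (η : ℂ) : ℕ → ℂ × ℂ
  | 0 => (1, 0)
  | k + 1 => ((W η k).1 + ((W η k).2 + η * (W η k).1), (W η k).2 + η * (W η k).1)

lemma W_bound (η : ℂ) (N : ℕ) (h : 2 * ‖η‖ * (N : ℝ) ^ 2 ≤ 1 / 2) :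
    ∀ k ≤ N, ‖(W η k).1 - 1‖ ≤ 2 * ‖η‖ * (k : ℝ) ^ 2 ∧ ‖(W η k).2 - k * η‖ ≤ ‖η‖ * k / 2 := by
  intro k
  induction k with
  | zero => intro _; simp [W]
  | succ j ih =>
    intro hj
    obtain ⟨h1, h2⟩ := ih (by omega)
    have he : 0 ≤ ‖η‖ := norm_nonneg _
    have hjN : (j : ℝ) ≤ N := by exact_mod_cast (by omega : j ≤ N)
    have hj0 : (0 : ℝ) ≤ j := Nat.cast_nonneg _
    have h3 : ‖(W η j).1 - 1‖ ≤ 1 / 2 := by
      have : (j : ℝ) ^ 2 ≤ (N : ℝ) ^ 2 := by gcongr
      nlinarith
    have h4 : ‖(W η j).2 + η * (W η j).1 - ((j + 1 : ℕ) : ℂ) * η‖ ≤ ‖η‖ * ((j + 1 : ℕ) : ℝ) / 2 := by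
      have e : (W η j).2 + η * (W η j).1 - ((j + 1 : ℕ) : ℂ) * η =
          ((W η j).2 - j * η) + η * ((W η j).1 - 1) := by push_cast; ring
      rw [e]
      refine (norm_add_le _ _).trans ?_
      rw [norm_mul]
      push_cast
      nlinarith
    refine ⟨?_, h4⟩
    have e : (W η (j + 1)).1 - 1 = ((W η j).1 - 1) +
        (((W η j).2 + η * (W η j).1 - ((j + 1 : ℕ) : ℂ) * η) + ((j + 1 : ℕ) : ℂ) * η) := by
      simp only [W]; ring
    rw [e]
    refine (norm_add_le _ _).trans ?_
    have h5 := norm_add_le ((W η j).2 + η * (W η j).1 - ((j + 1 : ℕ) : ℂ) * η)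
      (((j + 1 : ℕ) : ℂ) * η)
    rw [norm_mul, Complex.norm_natCast] at h5
    push_cast at h4 h5 ⊢
    nlinarith

noncomputable def th : ℝ := 1 / 10 ^ 14

noncomputable def bb (j : ℕ) : ℝ := if j < 2 then th / 4 else if j = 2 then 250 * th else 1 / 4

noncomputable def dd (j : ℕ) : ℝ :=
  if j = 0 then 1 - th / 4 else if j < 3 then 1 - th / 2 else if j = 3 then 3 / 4 - 250000 * th
  else if j = 1000002 then 3 / 4 else 1 / 2

noncomputable def vv (j : ℕ) : ℝ := if j < 3 then 1000 else 1

noncomputable def eta : ℂ := 4 * (th * I)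

noncomputable def rr : ℂ := 4 * th * 1000000 * (W eta 999999).1 / (W eta 1000000).2

noncomputable def mm : ℂ :=
  (79 + 40 * I + rr * (16 + 13 * I)) / (40 - 80 * I + 1000 * I + rr * (13 - 16 * I))

noncomputable def AA : ℂ := -4 * 1000000 * (-16 - 13 * I + (13 - 16 * I) * mm) / (W eta 1000000).2

noncomputable def uu (j : ℕ) : ℂ :=
  if j = 0 then 1000 / th else if j = 1 then 1000 * (1 + 4 * I - 4 * mm) / th
  else if j = 2 then 1000 * (-15 + 12 * I - (12 + 16 * I) * mm) / th
  else 1000 * mm / (th * I) + AA * (W eta (1000002 - j)).1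

lemma th_pos : 0 < th := by unfold th; positivity

lemma norm_eta : ‖eta‖ = 4 * th := by
  unfold eta
  rw [norm_mul, norm_mul, Complex.norm_I, Complex.norm_real, Real.norm_of_nonneg th_pos.le]
  simp

lemma W_facts : ‖(W eta 999999).1‖ ≤ 3 / 2 ∧ 2000000 * th ≤ ‖(W eta 1000000).2‖ := by
  have h := W_bound eta 1000000 (by rw [norm_eta]; unfold th; norm_num)
  have h1 := (h 999999 (by norm_num)).1
  have h2 := (h 1000000 le_rfl).2
  rw [norm_eta] at h1 h2
  constructor
  · have := norm_add_le ((W eta 999999).1 - 1) 1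
    rw [sub_add_cancel, norm_one] at this
    have h3 : 2 * (4 * th) * ((999999 : ℕ) : ℝ) ^ 2 ≤ 1 / 2 := by unfold th; norm_num
    have h4 := h1.trans h3
    generalize ‖(W eta 999999).1 - 1‖ = a at *
    generalize ‖(W eta 999999).1‖ = b at *
    linarith only [this, h4]
  · have h4 := norm_sub_le ((W eta 1000000).2) ((W eta 1000000).2 - ((1000000 : ℕ) : ℂ) * eta)
    rw [sub_sub_cancel, norm_mul, norm_eta, Complex.norm_natCast] at h4
    push_cast at h2 h4
    linarith

lemma W2_ne : (W eta 1000000).2 ≠ 0 := by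
  intro h
  have := W_facts.2
  rw [h, norm_zero] at this
  linarith [th_pos]

lemma rr_bound : ‖rr‖ ≤ 3 := by
  unfold rr
  have hp : 0 < ‖(W eta 1000000).2‖ := norm_pos_iff.2 W2_ne
  rw [norm_div, div_le_iff₀ hp, norm_mul, norm_mul, norm_mul, Complex.norm_real,
    Real.norm_of_nonneg th_pos.le]
  have h1 := W_facts.1
  have h2 := W_facts.2
  have h3 := th_pos
  simp only [Complex.norm_ofNat]
  nlinarith

lemma nrm (a b : ℝ) (c : ℝ) (hc : 0 ≤ c) (z : ℂ) (ha : z.re = a) (hb : z.im = b)
    (h : a ^ 2 + b ^ 2 ≤ c ^ 2) : ‖z‖ ≤ c := by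
  have : ‖z‖ ^ 2 ≤ c ^ 2 := by
    rw [Complex.sq_norm, Complex.normSq_apply, ha, hb]; nlinarith
  exact (pow_le_pow_iff_left₀ (norm_nonneg _) hc two_ne_zero).1 this

lemma den_bound : 800 ≤ ‖40 - 80 * I + 1000 * I + rr * (13 - 16 * I)‖ := by
  have h1 : ‖rr * (13 - 16 * I)‖ ≤ 63 := by
    rw [norm_mul]
    have := nrm 13 (-16) 21 (by norm_num) (13 - 16 * I) (by simp) (by simp) (by norm_num)
    nlinarith [rr_bound, norm_nonneg rr, norm_nonneg (13 - 16 * I)]
  have h2 := Complex.abs_im_le_norm (rr * (13 - 16 * I))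
  have h3 := Complex.abs_im_le_norm (40 - 80 * I + 1000 * I + rr * (13 - 16 * I))
  have h4 : (40 - 80 * I + 1000 * I + rr * (13 - 16 * I)).im = 920 + (rr * (13 - 16 * I)).im := by
    rw [Complex.add_im]; simp; norm_num
  rw [h4] at h3
  have h5 := neg_abs_le (rr * (13 - 16 * I)).im
  have h6 := le_abs_self (920 + (rr * (13 - 16 * I)).im)
  linarith

lemma den_ne : 40 - 80 * I + 1000 * I + rr * (13 - 16 * I) ≠ 0 := by
  intro h
  have := den_bound
  rw [h, norm_zero] at this
  linarith

lemma mm_bound : ‖mm‖ ≤ 1 / 5 := by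
  unfold mm
  have hp : 0 < ‖40 - 80 * I + 1000 * I + rr * (13 - 16 * I)‖ := norm_pos_iff.2 den_ne
  rw [norm_div, div_le_iff₀ hp]
  have h1 : ‖rr * (16 + 13 * I)‖ ≤ 63 := by
    rw [norm_mul]
    have := nrm 16 13 21 (by norm_num) (16 + 13 * I) (by simp) (by simp) (by norm_num)
    nlinarith [rr_bound, norm_nonneg rr, norm_nonneg (16 + 13 * I)]
  have h2 := nrm 79 40 89 (by norm_num) (79 + 40 * I) (by simp) (by simp) (by norm_num)
  have h3 := norm_add_le (79 + 40 * I) (rr * (16 + 13 * I))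
  have h4 := den_bound
  linarith

lemma mm_eq : mm * (40 - 80 * I + 1000 * I + rr * (13 - 16 * I)) =
    79 + 40 * I + rr * (16 + 13 * I) := by
  unfold mm
  exact div_mul_cancel₀ _ den_ne

lemma thc_ne : (th : ℂ) ≠ 0 := by exact_mod_cast th_pos.ne'

lemma AA_eq : AA * (W eta 1000000).2 = -4 * 1000000 * (-16 - 13 * I + (13 - 16 * I) * mm) := by
  unfold AA
  exact div_mul_cancel₀ _ W2_ne

lemma uu3 : uu 3 = (-79 - 40 * I + (40 - 80 * I) * mm) / th := by
  have h1 : (th : ℂ) * (AA * (W eta 999999).1) = -rr * (-16 - 13 * I + (13 - 16 * I) * mm) := by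
    unfold AA rr
    have := W2_ne
    field_simp
  have h2 := mm_eq
  have h3 : uu 3 = 1000 * mm / (th * I) + AA * (W eta 999999).1 := by simp [uu]
  have h4 := thc_ne
  rw [h3, eq_div_iff h4, add_mul, mul_comm (AA * _), h1]
  have h5 : 1000 * mm / (th * I) * th = -1000 * I * mm := by
    field_simp
    linear_combination mm * I_mul_I
  rw [h5]
  linear_combination -h2

lemma row (i : ℕ) (hi : i < 1000003) :
    (dd i : ℂ) * uu i + (if i + 1 < 1000003 then (bb i : ℂ) * uu (i + 1) else 0) +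
      (if 0 < i then (bb (i - 1) : ℂ) * uu (i - 1) else 0) = (1 + th * I) * uu i - 1000 * mm := by
  have h4 := thc_ne
  have hI : I ≠ 0 := I_ne_zero
  have h5 : (th * I) * (1000 * mm / (th * I)) = 1000 * mm := by field_simp
  rcases (by omega : i = 0 ∨ i = 1 ∨ i = 2 ∨ i = 3 ∨ i = 1000002 ∨ (4 ≤ i ∧ i < 1000002)) with
    h | h | h | h | h | h
  · subst h
    simp [dd, bb, uu]
    field_simp
    ring
  · subst h
    simp [dd, bb, uu]
    field_simp
    linear_combination (-32 * (th : ℂ)) * I_mul_I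
  · subst h
    rw [if_pos (by norm_num), if_pos (by norm_num), uu3]
    simp [dd, bb, uu]
    field_simp
    linear_combination ((th : ℂ) * (-96000 + 128000 * mm)) * I_mul_I
  · subst h
    have e3 : uu 3 = 1000 * mm / (th * I) + AA * (W eta 999999).1 := by simp [uu]
    have e4 : uu 4 = 1000 * mm / (th * I) + AA * (W eta 999998).1 := by simp [uu]
    have w1 : (W eta 999999).1 = (W eta 999998).1 + (W eta 999999).2 := rfl
    have w2 : (W eta 1000000).2 = (W eta 999999).2 + eta * (W eta 999999).1 := rfl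
    have e2 : (th : ℂ) * uu 2 = 1000 * (-15 + 12 * I - (12 + 16 * I) * mm) := by
      simp [uu]; field_simp
    have e3' : (th : ℂ) * uu 3 = -79 - 40 * I + (40 - 80 * I) * mm := by
      rw [uu3]; field_simp
    have hA := AA_eq
    have he : eta = 4 * (th * I) := rfl
    rw [if_pos (by norm_num), if_pos (by norm_num)]
    simp only [dd, bb]
    norm_num
    linear_combination (-250000) * e3' + 250 * e2 + (1 / 4) * e4 - (1 / 4 + th * I) * e3 - h5
      - (AA / 4) * w1 - (1 / 4) * hA + (AA / 4) * w2 + (AA / 4 * (W eta 999999).1) * he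
  · subst h
    have e1 : uu 1000002 = 1000 * mm / (th * I) + AA * (W eta 0).1 := by simp [uu]
    have e2 : uu 1000001 = 1000 * mm / (th * I) + AA * (W eta 1).1 := by simp [uu]
    have w1 : (W eta 1).1 = 1 + 4 * (th * I) := by simp [W, eta]
    have w0 : (W eta 0).1 = 1 := rfl
    rw [if_neg (by norm_num), if_pos (by norm_num)]
    simp only [dd, bb]
    norm_num
    rw [e1, e2, w1, w0]
    linear_combination -h5
  · obtain ⟨k, hk⟩ : ∃ k, i + k = 1000001 := ⟨1000001 - i, by omega⟩
    have e1 : uu i = 1000 * mm / (th * I) + AA * (W eta (k + 1)).1 := by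
      unfold uu
      rw [if_neg (by omega), if_neg (by omega), if_neg (by omega),
        show 1000002 - i = k + 1 by omega]
    have e2 : uu (i + 1) = 1000 * mm / (th * I) + AA * (W eta k).1 := by
      unfold uu
      rw [if_neg (by omega), if_neg (by omega), if_neg (by omega),
        show 1000002 - (i + 1) = k by omega]
    have e3 : uu (i - 1) = 1000 * mm / (th * I) + AA * (W eta (k + 2)).1 := by
      unfold uu
      rw [if_neg (by omega), if_neg (by omega), if_neg (by omega),
        show 1000002 - (i - 1) = k + 2 by omega]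
    have w1 : (W eta (k + 1)).1 = (W eta k).1 + (W eta (k + 1)).2 := rfl
    have w2 : (W eta (k + 2)).1 = (W eta (k + 1)).1 +
      ((W eta (k + 1)).2 + eta * (W eta (k + 1)).1) := rfl
    have he : eta = 4 * (th * I) := rfl
    have d1 : dd i = 1 / 2 := by
      unfold dd
      rw [if_neg (by omega), if_neg (by omega), if_neg (by omega), if_neg (by omega)]
    have b1 : bb i = 1 / 4 := by
      unfold bb
      rw [if_neg (by omega), if_neg (by omega)]
    have b2 : bb (i - 1) = 1 / 4 := by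
      unfold bb
      rw [if_neg (by omega), if_neg (by omega)]
    rw [if_pos (by omega), if_pos (by omega), d1, b1, b2, e1, e2, e3]
    push_cast
    linear_combination -h5 + (AA / 4) * w2 - (AA / 4) * w1 + (AA / 4 * (W eta (k + 1)).1) * he

lemma rowv (i : ℕ) (hi : i < 1000003) :
    dd i * vv i + (if i + 1 < 1000003 then bb i * vv (i + 1) else 0) +
      (if 0 < i then bb (i - 1) * vv (i - 1) else 0) = vv i := by
  unfold dd bb vv
  split_ifs <;> first | omega | ring

lemma bb_pos (j : ℕ) : 0 < bb j ∧ bb j ≤ 1 / 4 := by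
  unfold bb th
  split_ifs <;> norm_num

lemma dd_pos (j : ℕ) : 0 < dd j := by
  unfold dd th
  split_ifs <;> norm_num

lemma bary : ∃ α β γ : ℝ, 0 ≤ α ∧ 0 ≤ β ∧ 0 ≤ γ ∧ α + β + γ = 1 ∧
    α * uu 0 + β * uu 1 + γ * uu 3 = 0 := by
  have hm := mm_bound
  have hx := Complex.abs_re_le_norm mm
  have hy := Complex.abs_im_le_norm mm
  set x := mm.re with hxd
  set y := mm.im with hyd
  have hx1 : -(1 / 5) ≤ x := by linarith [neg_abs_le x]
  have hx2 : x ≤ 1 / 5 := by linarith [le_abs_self x]
  have hy1 : -(1 / 5) ≤ y := by linarith [neg_abs_le y]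
  have hy2 : y ≤ 1 / 5 := by linarith [le_abs_self y]
  have hmm : mm = x + y * I := (Complex.re_add_im mm).symm
  set p := 1 - 4 * x with hp
  set q := 4 - 4 * y with hq
  set r := -79 + 40 * x + 80 * y with hr
  set s := -40 + 40 * y - 80 * x with hs
  have hq0 : 0 < q := by linarith
  have hs0 : s < 0 := by linarith
  have hc : 0 < p * s - q * r := by nlinarith
  have hT : 0 < (p * s - q * r) + (-s) + 1000 * q := by linarith
  have e0 : uu 0 = 1000 / th := by simp [uu]
  have e1 : uu 1 = 1000 * (p + q * I) / th := by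
    have : uu 1 = 1000 * (1 + 4 * I - 4 * mm) / th := by simp [uu]
    rw [this, hmm, hp, hq]
    push_cast
    ring
  have e3 : uu 3 = (r + s * I) / th := by
    rw [uu3, hmm, hr, hs]
    push_cast
    congr 1
    linear_combination (-80 * (y : ℂ)) * I_mul_I
  refine ⟨(p * s - q * r) / ((p * s - q * r) + (-s) + 1000 * q),
    (-s) / ((p * s - q * r) + (-s) + 1000 * q),
    1000 * q / ((p * s - q * r) + (-s) + 1000 * q), by positivity,
    div_nonneg (by linarith) hT.le, by positivity,
    by rw [← add_div, ← add_div]; exact div_self hT.ne', ?_⟩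
  rw [e0, e1, e3]
  have hTc : ((p * s - q * r : ℂ) + (-s) + 1000 * q) ≠ 0 := by exact_mod_cast hT.ne'
  have h4 := thc_ne
  push_cast
  field_simp
  ring

lemma main (n : ℕ) (hn : n = 1000003) : ∃ (P : Matrix (Fin n) (Fin n) ℝ) (c : Fin n → ℝ), n = 1000003 ∧
    P.IsSymm ∧
    (∀ r s : Fin n, 1 < |((r : ℕ) : ℤ) - (s : ℕ)| → P r s = 0) ∧
    (∀ r s : Fin n, |((r : ℕ) : ℤ) - (s : ℕ)| ≤ 1 → 0 < P r s) ∧
    spectralRadius ℂ (P.map ofReal) = 1 ∧
    (∀ s : Fin n, (∑ r : Fin n, if (r : ℕ) + 1 = s ∨ (r : ℕ) = s + 1 then P r s else 0) ≤ 1) ∧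
    (∀ i, 0 ≤ c i) ∧ ∑ i, c i = 1 ∧
    1 < spectralRadius ℂ (((1 - vecMulVec c (fun _ => 1)) * P).map ofReal) := by
  obtain ⟨α, β, γ, hα, hβ, hγ, hsum, hz⟩ := bary
  have hnn : ∀ i j, 0 ≤ tri n dd bb i j := by
    intro i j
    unfold tri
    split_ifs
    · exact (dd_pos _).le
    · exact (bb_pos _).1.le
    · exact (bb_pos _).1.le
    · exact le_rfl
  have hsymm : ∀ i j, tri n dd bb j i = tri n dd bb i j := by
    intro i j
    unfold tri
    split_ifs <;> first | omega | rfl | simp_all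
  have hPv : ∀ i : Fin n, ∑ j, tri n dd bb i j * vv j = vv i := by
    intro i
    have := tri_sum (RingHom.id ℝ) n dd bb vv i
    simp only [RingHom.id_apply] at this
    rw [this]
    have h1 := rowv i (hn ▸ i.2)
    rwa [← hn] at h1
  have hPu : ∀ i : Fin n, ∑ j, (tri n dd bb i j : ℂ) * uu j =
      (1 + th * I) * uu i - 1000 * mm := by
    intro i
    have := tri_sum Complex.ofRealHom n dd bb uu i
    simp only [Complex.ofRealHom_eq_coe] at this
    rw [this]
    have h1 := row i (hn ▸ i.2)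
    rwa [← hn] at h1
  have hvpos : ∀ j, 0 < vv j := by
    intro j; unfold vv; split_ifs <;> norm_num
  let c : Fin n → ℝ := fun i =>
    (if (i : ℕ) = 0 then α else 0) + (if (i : ℕ) = 1 then β else 0) + (if (i : ℕ) = 3 then γ else 0)
  have key : ∀ {K : Type} [AddCommMonoid K] (a : ℕ) (x : K), a < n →
      ∑ j : Fin n, (if (j : ℕ) = a then x else 0) = x := by
    intro K _ a x ha
    rw [Fin.sum_univ_eq_sum_range (fun j => if j = a then x else 0) n, Finset.sum_ite_eq',
      if_pos (Finset.mem_range.2 ha)]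
  have hc1 : ∑ i, c i = 1 := by
    simp only [c]
    rw [Finset.sum_add_distrib, Finset.sum_add_distrib, key _ _ (by omega),
      key _ _ (by omega), key _ _ (by omega), hsum]
  have hcu : ∑ i, (c i : ℂ) * uu i = 0 := by
    have h : ∀ i : Fin n, (c i : ℂ) * uu i = (if (i : ℕ) = 0 then α * uu 0 else 0) +
        (if (i : ℕ) = 1 then β * uu 1 else 0) + (if (i : ℕ) = 3 then γ * uu 3 else 0) := by
      intro i
      simp only [c]
      split_ifs <;> first | omega | simp_all
    rw [Finset.sum_congr rfl fun i _ => h i, Finset.sum_add_distrib, Finset.sum_add_distrib,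
      key _ _ (by omega), key _ _ (by omega), key _ _ (by omega), hz]
  refine ⟨tri n dd bb, c, hn, ?_, ?_, ?_, ?_, ?_, ?_, hc1, ?_⟩
  · ext i j
    exact hsymm i j
  · intro r s h
    unfold tri
    rw [lt_abs] at h
    split_ifs <;> first | omega | rfl
  · intro r s h
    unfold tri
    rw [abs_le] at h
    split_ifs
    · exact dd_pos _
    · exact (bb_pos _).1
    · exact (bb_pos _).1
    · omega
  · apply le_antisymm
    · refine iSup₂_le fun μ hμ => ?_
      have := eig_le _ hnn (fun j => vv j) (fun j => hvpos j) hPv μ hμ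
      exact_mod_cast this
    · have h1 : (1 : ℂ) ∈ spectrum ℂ ((tri n dd bb).map ofReal) := by
        rw [spectrum.mem_iff, Matrix.isUnit_iff_isUnit_det, isUnit_iff_ne_zero, not_not,
          ← Matrix.exists_mulVec_eq_zero_iff]
        refine ⟨fun j => (vv j : ℂ), ?_, ?_⟩
        · intro h
          have := congrFun h ⟨0, by omega⟩
          simp [vv] at this
        · rw [Matrix.sub_mulVec, map_one, Matrix.one_mulVec]
          ext i
          simp only [Pi.sub_apply, Pi.zero_apply, Matrix.mulVec, dotProduct, Matrix.map_apply]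
          rw [sub_eq_zero]
          exact_mod_cast (hPv i).symm
      refine le_trans ?_ (le_rad _ _ h1)
      simp
  · intro s
    have h : ∀ r : Fin n, (if (r : ℕ) + 1 = s ∨ (r : ℕ) = s + 1 then
        tri n dd bb r s else 0) ≤ (if (r : ℕ) = s - 1 then (1 / 4 : ℝ) else 0) +
        (if (r : ℕ) = min ((s : ℕ) + 1) 1000002 then (1 / 4 : ℝ) else 0) := by
      intro r
      have := r.2
      unfold tri
      split_ifs <;> first | omega | linarith [(bb_pos r).2, (bb_pos s).2]
    refine (Finset.sum_le_sum fun r _ => h r).trans ?_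
    have := s.2
    rw [Finset.sum_add_distrib, key _ _ (by omega), key _ _ (by omega)]
    norm_num
  · intro i
    simp only [c]
    split_ifs <;> first | omega | linarith
  · have h1 : (1 + th * I : ℂ) ∈ spectrum ℂ
        (((1 - vecMulVec c (fun _ => 1)) * tri n dd bb).map ofReal) := by
      rw [spectrum.mem_iff, Matrix.isUnit_iff_isUnit_det, isUnit_iff_ne_zero, not_not,
        ← Matrix.exists_vecMul_eq_zero_iff]
      refine ⟨fun j => (1 + th * I) * uu j - 1000 * mm, ?_, ?_⟩
      · intro h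
        have e := congrFun h ⟨0, by omega⟩
        have e0 : uu 0 = 1000 / th := by simp [uu]
        simp only [Pi.zero_apply] at e
        rw [e0] at e
        have h4 := thc_ne
        have e' : mm = (1 / th : ℝ) + I := by
          push_cast
          field_simp
          field_simp at e
          linear_combination (-1 / 1000) * e
        have hre := (le_abs_self _).trans (Complex.abs_im_le_norm mm)
        have := mm_bound
        have him : mm.im = 1 := by rw [e']; simp
        linarith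
      · have hmap : ((1 - vecMulVec c (fun _ => 1)) * tri n dd bb).map ofReal =
            (1 - vecMulVec (fun i => (c i : ℂ)) (fun _ => 1)) * (tri n dd bb).map ofReal := by
          have := Matrix.map_mul (L := 1 - vecMulVec c (fun _ => (1 : ℝ))) (M := tri n dd bb)
            (f := Complex.ofRealHom)
          refine this.trans ?_
          congr 1
          ext i j
          simp only [Matrix.map_apply, Matrix.sub_apply, Matrix.one_apply, vecMulVec_apply,
            Complex.ofRealHom_eq_coe]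
          split_ifs <;> simp
        have hyc : ∑ i : Fin n, ((1 + th * I) * uu i - 1000 * mm) * (c i : ℂ) =
            -(1000 * mm) := by
          have hc1' : ∑ i, (c i : ℂ) = 1 := by exact_mod_cast hc1
          have : ∀ i : Fin n, ((1 + th * I) * uu i - 1000 * mm) * (c i : ℂ) =
              (1 + th * I) * ((c i : ℂ) * uu i) - 1000 * mm * (c i : ℂ) := fun i => by ring
          rw [Finset.sum_congr rfl fun i _ => this i, Finset.sum_sub_distrib, ← Finset.mul_sum,
            ← Finset.mul_sum, hcu, hc1']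
          ring
        have hy : (fun j : Fin n => (1 + th * I) * uu j - 1000 * mm) ᵥ*
            (1 - vecMulVec (fun i => (c i : ℂ)) (fun _ => 1)) =
            fun j : Fin n => (1 + th * I) * uu j := by
          rw [Matrix.vecMul_sub, Matrix.vecMul_one]
          ext j
          simp only [Pi.sub_apply, Matrix.vecMul, dotProduct, vecMulVec_apply, mul_one]
          have : ∀ i : Fin n, ((1 + th * I) * uu i - 1000 * mm) * ((c i : ℂ)) =
            ((1 + th * I) * uu i - 1000 * mm) * (c i : ℂ) := fun _ => rfl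
          rw [hyc]
          ring
        rw [Matrix.vecMul_sub, hmap, ← Matrix.vecMul_vecMul, hy, Algebra.algebraMap_eq_smul_one,
          Matrix.vecMul_smul, Matrix.vecMul_one]
        ext j
        simp only [Pi.sub_apply, Pi.smul_apply, smul_eq_mul, Pi.zero_apply, Matrix.vecMul,
          dotProduct, Matrix.map_apply]
        rw [← hPu j, Finset.mul_sum, sub_eq_zero]
        refine Finset.sum_congr rfl fun i _ => ?_
        rw [hsymm i j]
        ring
    refine lt_of_lt_of_le ?_ (le_rad _ _ h1)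
    have h2 : (1 : ℝ) < ‖(1 + th * I : ℂ)‖ := by
      have h3 : (1 : ℝ) ^ 2 < ‖(1 + th * I : ℂ)‖ ^ 2 := by
        rw [Complex.sq_norm, Complex.normSq_apply]
        simp
        exact th_pos.ne'
      exact lt_of_pow_lt_pow_left₀ 2 (norm_nonneg _) h3
    exact_mod_cast h2

/-- Q1 fails: a symmetric tridiagonal `P` with positive band, spectral radius one and
neighbour sums at most one, and a probability vector `c`, such that `(I - c eᵀ) P` has
spectral radius greater than one. -/
theorem result : ∃ (n : ℕ) (P : Matrix (Fin n) (Fin n) ℝ) (c : Fin n → ℝ), n = 1000003 ∧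
    P.IsSymm ∧
    (∀ r s : Fin n, 1 < |((r : ℕ) : ℤ) - (s : ℕ)| → P r s = 0) ∧
    (∀ r s : Fin n, |((r : ℕ) : ℤ) - (s : ℕ)| ≤ 1 → 0 < P r s) ∧
    spectralRadius ℂ (P.map ofReal) = 1 ∧
    (∀ s : Fin n, (∑ r : Fin n, if (r : ℕ) + 1 = s ∨ (r : ℕ) = s + 1 then P r s else 0) ≤ 1) ∧
    (∀ i, 0 ≤ c i) ∧ ∑ i, c i = 1 ∧
    1 < spectralRadius ℂ (((1 - vecMulVec c (fun _ => 1)) * P).map ofReal) := by
  exact ⟨1000003, main 1000003 rfl⟩

end Pool.Agent.Results.MP_8f6a5a_an.Counter
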